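import Pool.Agent.helper60.MW.Spec

set_option autoImplicit false

namespace Pool.Agent.MW

open MeasureTheory Set Pool.Agent.helper17.Worm

/-- the logarithm of `10 ^ 4` -/
noncomputable def PAR_c : ℝ := Real.log ((10 : ℝ) ^ 4)

theorem PAR_log (M B A : ℝ) (hM : 0 < M) (hB : 0 < B)
    (h : PAR_c + Real.log M - 3 * Real.log B ≤ A) :
    10 ^ 4 * M * Real.exp (-A) ≤ B ^ 3 := by
  have h1 : (10 : ℝ) ^ 4 * M = Real.exp (PAR_c + Real.log M) := by
    unfold PAR_c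
    rw [Real.exp_add, Real.exp_log (by norm_num), Real.exp_log hM]
  have h2 : B ^ 3 = Real.exp (3 * Real.log B) := by
    have h3 : (3 : ℝ) * Real.log B = ((3 : ℕ) : ℝ) * Real.log B := by norm_num
    rw [h3, Real.exp_nat_mul, Real.exp_log hB]
  rw [h1, h2, ← Real.exp_add]
  apply Real.exp_le_exp.2
  linarith

theorem PAR_l10 : PAR_c ≤ 9.8 := by
  have h1 : PAR_c ≤ Real.log ((2 : ℝ) ^ 14) := Real.log_le_log (by norm_num) (by norm_num)
  have h0 : Real.log ((2 : ℝ) ^ 14) = ((14 : ℕ) : ℝ) * Real.log 2 := Real.log_pow (2 : ℝ) 14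
  have h2 := Real.log_two_lt_d9
  have h3 : ((14 : ℕ) : ℝ) = 14 := by norm_num
  rw [h0, h3] at h1
  refine h1.trans ?_
  linarith

theorem PAR_kk (P : ℕ) (hP : 1 ≤ P) (l n : ℕ) (hl : l ≤ n) : (kk P l : ℝ) ≤ (P : ℝ) * 8 ^ n := by
  have hP' : (1 : ℝ) ≤ P := by exact_mod_cast hP
  unfold kk
  split_ifs with h
  · push_cast
    have : (1 : ℝ) ≤ 8 ^ n := one_le_pow₀ (by norm_num)
    nlinarith
  · push_cast
    have : (8 : ℝ) ^ l ≤ 8 ^ n := pow_le_pow_right₀ (by norm_num) hl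
    nlinarith

theorem PAR_kkpos (P : ℕ) (hP : 1 ≤ P) (l : ℕ) : (1 : ℝ) ≤ (kk P l : ℝ) := by
  have : 1 ≤ kk P l := by
    unfold kk
    split_ifs
    · exact le_refl 1
    · exact Nat.one_le_iff_ne_zero.2 (Nat.mul_ne_zero (by omega) (pow_ne_zero _ (by norm_num)))
  exact_mod_cast this

theorem PAR_l8 (P : ℕ) (hP : 1 ≤ P) (n : ℕ) :
    Real.log ((P : ℝ) * 8 ^ n) = Real.log P + n * (3 * Real.log 2) := by
  have hP' : (0 : ℝ) < P := by exact_mod_cast hP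
  rw [Real.log_mul hP'.ne' (by positivity), Real.log_pow]
  have h8 : Real.log 8 = 3 * Real.log 2 := by
    have : (8 : ℝ) = 2 ^ 3 := by norm_num
    rw [this, Real.log_pow]
    norm_num
  rw [h8]

theorem PAR_mm (P m i : ℕ) (hP : 1 ≤ P) (hm : 1 ≤ m) : 0 < (mm P m i : ℝ) ∧
    Real.log (mm P m i) ≤ Real.log m + i * (Real.log P + i * (3 * Real.log 2)) := by
  have hm' : (0 : ℝ) < m := by exact_mod_cast hm
  have hP' : (0 : ℝ) < P := by exact_mod_cast hP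
  have h1 : (mm P m i : ℝ) = m * ∏ l ∈ Finset.range i, (kk P l : ℝ) := by
    unfold mm
    push_cast
    rfl
  have hpos : 0 < ∏ l ∈ Finset.range i, (kk P l : ℝ) :=
    Finset.prod_pos fun l _ => lt_of_lt_of_le one_pos (PAR_kkpos P hP l)
  have hle : ∏ l ∈ Finset.range i, (kk P l : ℝ) ≤ ((P : ℝ) * 8 ^ i) ^ i := by
    have h2 : ∏ l ∈ Finset.range i, (kk P l : ℝ) ≤ ∏ _l ∈ Finset.range i, ((P : ℝ) * 8 ^ i) :=
      Finset.prod_le_prod (fun l _ => by positivity) fun l hl =>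
        PAR_kk P hP l i (Finset.mem_range.1 hl).le
    rwa [Finset.prod_const, Finset.card_range] at h2
  refine ⟨by rw [h1]; positivity, ?_⟩
  rw [h1, Real.log_mul hm'.ne' hpos.ne']
  have h3 : Real.log (∏ l ∈ Finset.range i, (kk P l : ℝ)) ≤ Real.log (((P : ℝ) * 8 ^ i) ^ i) :=
    Real.log_le_log hpos hle
  rw [Real.log_pow, PAR_l8 P hP i] at h3
  linarith

theorem PAR_aa (P : ℕ) (a : ℝ) (n : ℕ) (hP : 1 ≤ P) (ha : 0 < a) : 0 < aa P a n ∧
    -Real.log (aa P a n) ≤ Real.log (1 / a) + n * (Real.log 2 + (Real.log P + n * (3 * Real.log 2))) := by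
  have hP' : (0 : ℝ) < P := by exact_mod_cast hP
  have hpos : 0 < ∏ l ∈ Finset.range n, (2 * (kk P (l + 1) : ℝ)) :=
    Finset.prod_pos fun l _ => by have := PAR_kkpos P hP (l + 1); linarith
  have hle : ∏ l ∈ Finset.range n, (2 * (kk P (l + 1) : ℝ)) ≤ (2 * ((P : ℝ) * 8 ^ n)) ^ n := by
    have h2 : ∏ l ∈ Finset.range n, (2 * (kk P (l + 1) : ℝ)) ≤
        ∏ _l ∈ Finset.range n, (2 * ((P : ℝ) * 8 ^ n)) :=
      Finset.prod_le_prod (fun l _ => by positivity) fun l hl =>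
        mul_le_mul_of_nonneg_left (PAR_kk P hP (l + 1) n (Finset.mem_range.1 hl)) (by norm_num)
    rwa [Finset.prod_const, Finset.card_range] at h2
  unfold aa
  refine ⟨by positivity, ?_⟩
  rw [Real.log_div ha.ne' hpos.ne', one_div, Real.log_inv]
  have h3 : Real.log (∏ l ∈ Finset.range n, (2 * (kk P (l + 1) : ℝ))) ≤
      Real.log ((2 * ((P : ℝ) * 8 ^ n)) ^ n) := Real.log_le_log hpos hle
  rw [Real.log_pow, Real.log_mul (by norm_num) (by positivity), PAR_l8 P hP n] at h3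
  linarith

theorem PAR_hh (κ : ℝ) (i : ℕ) (hκ : 0 < κ) : 0 < hh κ i ∧
    -Real.log (hh κ i) = Real.log (1 / κ) + (i + 4) * Real.log 2 := by
  unfold hh
  refine ⟨by positivity, ?_⟩
  rw [Real.log_div hκ.ne' (by positivity), Real.log_pow, one_div, Real.log_inv]
  push_cast
  ring

theorem PAR_P (Λ κ : ℝ) (hκ : 0 < κ) (hκ2 : κ ≤ 1 / 2) (hΛ : 40 + 5 * Real.log (1 / κ) ≤ Λ) :
    ∃ P : ℕ, 1 ≤ P ∧ 32 * Λ / κ ≤ P ∧ Real.log P ≤ 0.225 * Λ := by
  have hz : 0 ≤ Real.log (1 / κ) := Real.log_nonneg (by rw [le_div_iff₀ hκ]; linarith)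
  have hΛ0 : 40 ≤ Λ := by linarith
  have hq : 0 < 32 * Λ / κ := by positivity
  have hq1 : 1 ≤ Λ / κ := by rw [le_div_iff₀ hκ]; linarith
  refine ⟨⌈32 * Λ / κ⌉₊, Nat.one_le_iff_ne_zero.2 (Nat.ceil_pos.2 hq).ne', Nat.le_ceil _, ?_⟩
  have h1 : ((⌈32 * Λ / κ⌉₊ : ℕ) : ℝ) < 32 * Λ / κ + 1 := Nat.ceil_lt_add_one hq.le
  have h2 : 32 * Λ / κ + 1 ≤ 64 * (Λ / κ) := by
    have : 32 * Λ / κ = 32 * (Λ / κ) := by ring
    rw [this]; linarith
  have hc : (0 : ℝ) < ((⌈32 * Λ / κ⌉₊ : ℕ) : ℝ) := by exact_mod_cast Nat.ceil_pos.2 hq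
  have h3 : Real.log ((⌈32 * Λ / κ⌉₊ : ℕ) : ℝ) ≤ Real.log (64 * (Λ / κ)) :=
    Real.log_le_log hc (by linarith)
  have h4 : Real.log (64 * (Λ / κ)) = 6 * Real.log 2 + (Real.log Λ + Real.log (1 / κ)) := by
    rw [Real.log_mul (by norm_num) (by positivity), Real.log_div (by linarith) hκ.ne', one_div,
      Real.log_inv]
    have : (64 : ℝ) = 2 ^ 6 := by norm_num
    rw [this, Real.log_pow]
    push_cast
    ring
  have h5 : Real.log Λ ≤ 6 * Real.log 2 + (Λ / 40 - 1) := by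
    have h6 : Λ = 40 * (Λ / 40) := by ring
    have h7 : Real.log Λ = Real.log 40 + Real.log (Λ / 40) := by
      conv_lhs => rw [h6]
      rw [Real.log_mul (by norm_num) (by positivity)]
    have h8 : Real.log 40 ≤ 6 * Real.log 2 := by
      have h9 : Real.log 40 ≤ Real.log (2 ^ 6) := Real.log_le_log (by norm_num) (by norm_num)
      rw [Real.log_pow] at h9
      push_cast at h9
      exact h9
    have h10 : Real.log (Λ / 40) ≤ Λ / 40 - 1 := Real.log_le_sub_one_of_pos (by positivity)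
    linarith
  have h11 := Real.log_two_lt_d9
  rw [h4] at h3
  linarith

theorem PAR_pow (i : ℕ) : 1 + 3 * (i : ℝ) + (i : ℝ) ^ 2 ≤ 2 * 4 ^ i := by
  induction i with
  | zero => norm_num
  | succ n ih =>
    rw [pow_succ (4 : ℝ) n]
    push_cast
    have hn : (0 : ℝ) ≤ n := Nat.cast_nonneg n
    have h4 : (1 : ℝ) ≤ 4 ^ n := one_le_pow₀ (by norm_num)
    nlinarith

theorem PAR : PAR_stmt := by
  intro κ a m K hκ hκ2 ha ha8 hm hK
  set x := Real.log m with hx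
  set y := Real.log (1 / a) with hy
  set z := Real.log (1 / κ) with hz
  have hx0 : 0 ≤ x := Real.log_nonneg (by exact_mod_cast hm)
  have hy0 : 0 ≤ y := Real.log_nonneg (by rw [le_div_iff₀ ha]; linarith)
  have hz0 : 0 ≤ z := Real.log_nonneg (by rw [le_div_iff₀ hκ]; linarith)
  set Λ := x + 3 * y + 5 * z + 40 with hΛ
  obtain ⟨P, hP1, hP2, hP3⟩ := PAR_P Λ κ hκ hκ2 (by rw [← hz]; linarith)
  have hp0 : 0 ≤ Real.log P := Real.log_nonneg (by exact_mod_cast hP1)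
  have hL2 := Real.log_two_lt_d9
  have hL2' := Real.log_two_gt_d9
  have h10 := PAR_l10
  have hΛ40 : 40 ≤ Λ := by linarith
  have hK' : 4 * Λ ≤ hh κ 0 * K := by
    have h1 : 64 / κ * Λ ≤ K := hK
    have h2 : 64 / κ * Λ * (κ / 16) ≤ K * (κ / 16) := mul_le_mul_of_nonneg_right h1 (by positivity)
    have h3 : 64 / κ * Λ * (κ / 16) = 4 * Λ := by field_simp; ring
    rw [h3] at h2
    have h4 : hh κ 0 = κ / 16 := by unfold hh; norm_num
    rw [h4]; linarith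
  refine ⟨P, hP1, ?_, ?_⟩
  · obtain ⟨ha1, ha2⟩ := PAR_aa P a 1 hP1 ha
    obtain ⟨hh1, hh2⟩ := PAR_hh κ 0 hκ
    have hm' : (0 : ℝ) < m := by exact_mod_cast hm
    refine PAR_log (m : ℝ) _ _ hm' (mul_pos hh1 ha1) ?_
    rw [Real.log_mul hh1.ne' ha1.ne']
    push_cast at ha2 hh2
    rw [← hy] at ha2
    rw [← hz] at hh2
    rw [← hx]
    linarith
  · intro i hi
    obtain ⟨ha1, ha2⟩ := PAR_aa P a (i + 1) hP1 ha
    obtain ⟨hh1, hh2⟩ := PAR_hh κ i hκ
    obtain ⟨hm1, hm2⟩ := PAR_mm P m i hP1 hm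
    refine PAR_log _ _ _ hm1 (mul_pos hh1 ha1) ?_
    rw [Real.log_mul hh1.ne' ha1.ne']
    have hA : 2 * Λ * 4 ^ i ≤ hh κ i * kk P i := by
      have h1 : (kk P i : ℝ) = P * 8 ^ i := by
        unfold kk
        rw [if_neg (by omega)]
        push_cast
        rfl
      have h2 : hh κ i * kk P i = κ / 16 * P * 4 ^ i := by
        rw [h1]
        unfold hh
        have h3 : (8 : ℝ) ^ i = 2 ^ i * 4 ^ i := by rw [← mul_pow]; norm_num
        rw [h3, pow_add]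
        field_simp
        ring
      rw [h2]
      have h4 : 2 * Λ ≤ κ / 16 * P := by
        have h5 : 32 * Λ / κ * (κ / 16) ≤ P * (κ / 16) := mul_le_mul_of_nonneg_right hP2 (by positivity)
        have h6 : 32 * Λ / κ * (κ / 16) = 2 * Λ := by field_simp; ring
        rw [h6] at h5
        linarith
      exact mul_le_mul_of_nonneg_right h4 (by positivity)
    refine le_trans ?_ hA
    have hpw := PAR_pow i
    have hi' : (1 : ℝ) ≤ i := by exact_mod_cast hi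
    push_cast at ha2
    rw [← hx] at hm2
    rw [← hy] at ha2
    rw [← hz] at hh2
    have hi2 : (0 : ℝ) ≤ (i : ℝ) ^ 2 := by positivity
    have e1 : PAR_c + Real.log (mm P m i) -
        3 * (Real.log (hh κ i) + Real.log (aa P a (i + 1))) ≤
        9.8 + x + 3 * y + 3 * z + (4 * i + 3) * Real.log P +
          Real.log 2 * (12 * (i : ℝ) ^ 2 + 24 * i + 24) := by
      nlinarith
    have e2 : (4 * (i : ℝ) + 3) * Real.log P ≤ (4 * i + 3) * (0.225 * Λ) :=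
      mul_le_mul_of_nonneg_left hP3 (by positivity)
    have e3 : Real.log 2 * (12 * (i : ℝ) ^ 2 + 24 * i + 24) ≤
        0.7 * (12 * (i : ℝ) ^ 2 + 24 * i + 24) :=
      mul_le_mul_of_nonneg_right (by linarith) (by positivity)
    have e4 : (40 : ℝ) * (0.21 * (i : ℝ) ^ 2 + 0.42 * i) ≤ Λ * (0.21 * (i : ℝ) ^ 2 + 0.42 * i) :=
      mul_le_mul_of_nonneg_right hΛ40 (by positivity)
    have e5 : Λ * (1 + 3 * (i : ℝ) + (i : ℝ) ^ 2) ≤ Λ * (2 * 4 ^ i) :=
      mul_le_mul_of_nonneg_left hpw (by linarith)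
    have e6 : Λ * (1.675 + 1.32 * (i : ℝ) + 0.21 * (i : ℝ) ^ 2) ≤
        Λ * (1 + 3 * (i : ℝ) + (i : ℝ) ^ 2) :=
      mul_le_mul_of_nonneg_left (by nlinarith) (by linarith)
    nlinarith

end Pool.Agent.MW
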