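import Pool.Agent.helper37.MW.Spec
import Pool.Agent.helper55.NK.Base

set_option autoImplicit false

namespace Pool.Agent.helper37.MW

open Finset Pool.Agent.NK

theorem SGL_choose_mono (q : ℕ) : ∀ (d a : ℕ), 2 * (a + d) ≤ q → q.choose a ≤ q.choose (a + d)
  | 0, a, _ => le_rfl
  | d + 1, a, h => by
    have h1 := SGL_choose_mono q d a (by omega)
    have h2 : q.choose (a + d) ≤ q.choose (a + d + 1) :=
      Nat.choose_le_succ_of_lt_half_left (by omega)
    exact h1.trans h2

theorem SGL_num (k n : ℕ) (hk : 2 ≤ k) (h1 : 2 * k ≤ n) (h2 : n < 3 * k) :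
    ((n + 1) / k) * (n - (n + 1) / k).choose (k - 1) = 2 * (n - 2).choose (k - 1) := by
  rcases Nat.lt_or_ge (n + 1) (3 * k) with h | h
  · have e : (n + 1) / k = 2 := by
      apply Nat.div_eq_of_lt_le
      · omega
      · omega
    rw [e]
  · have hn : n + 1 = 3 * k := by omega
    have e : (n + 1) / k = 3 := by
      rw [hn]; exact Nat.mul_div_cancel _ (by omega)
    rw [e]
    obtain ⟨j, rfl⟩ : ∃ j, k = j + 2 := ⟨k - 2, by omega⟩
    obtain rfl : n = 3 * j + 5 := by omega
    have e1 : 3 * j + 5 - 3 = 3 * j + 2 := by omega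
    have e2 : 3 * j + 5 - 2 = 3 * j + 3 := by omega
    have e3 : j + 2 - 1 = j + 1 := by omega
    rw [e1, e2, e3]
    have h3 := Nat.choose_mul_succ_eq (3 * j + 2) (j + 1)
    -- n.choose k * (n+1) = (n+1).choose k * (n + 1 - k)
    have e4 : 3 * j + 2 + 1 - (j + 1) = 2 * (j + 1) := by omega
    rw [e4] at h3
    have e5 : 3 * j + 2 + 1 = 3 * (j + 1) := by ring
    have h4 : (j + 1) * (3 * (3 * j + 2).choose (j + 1)) = (j + 1) * (2 * (3 * j + 3).choose (j + 1)) := by
      calc (j + 1) * (3 * (3 * j + 2).choose (j + 1)) = (3 * j + 2).choose (j + 1) * (3 * j + 2 + 1) := by ring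
        _ = (3 * j + 2 + 1).choose (j + 1) * (2 * (j + 1)) := h3
        _ = (j + 1) * (2 * (3 * j + 3).choose (j + 1)) := by
          rw [show 3 * j + 2 + 1 = 3 * j + 3 from rfl]; ring
    exact Nat.eq_of_mul_eq_mul_left (by omega) h4

theorem SGL : SGL_stmt := by
  intro p q k C hk hkq hn hC hcard
  have h0 : ∑ c ∈ C, p.choose c.1 * q.choose c.2
      = ∑ c ∈ C.filter (fun c => c.1 ≤ p), p.choose c.1 * q.choose c.2 := by
    symm
    apply Finset.sum_subset (Finset.filter_subset _ _)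
    intro c hc hc'
    have : p < c.1 := by
      by_contra h
      exact hc' (Finset.mem_filter.2 ⟨hc, by omega⟩)
    rw [Nat.choose_eq_zero_of_lt this, Nat.zero_mul]
  rw [h0]
  rcases Nat.eq_zero_or_pos #(C.filter (fun c => c.1 ≤ p)) with hz | hz
  · rw [Finset.card_eq_zero.1 hz, Finset.sum_empty]; exact Nat.zero_le _
  · have h1 : #(C.filter (fun c => c.1 ≤ p)) = 1 := le_antisymm hcard hz
    obtain ⟨c, hc⟩ := Finset.card_eq_one.1 h1
    have hm : c ∈ C.filter (fun c => c.1 ≤ p) := by rw [hc]; exact Finset.mem_singleton_self c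
    rw [hc, Finset.sum_singleton]
    obtain ⟨hmC, hcp⟩ := Finset.mem_filter.1 hm
    obtain ⟨ha, hb, hab⟩ := hC c hmC
    have h2 : q.choose c.2 ≤ q.choose (k - c.1) := by
      have := SGL_choose_mono q (k - c.1 - c.2) c.2 (by omega)
      rwa [show c.2 + (k - c.1 - c.2) = k - c.1 by omega] at this
    have h3 := Pool.Agent.NK.Base.prod_le p q c.1 (k - c.1) ha (by omega) (by omega)
    rw [show c.1 + (k - c.1) = k by omega] at h3
    rw [SGL_num k (p + q) hk (by omega) hn] at h3
    exact (Nat.mul_le_mul_left _ h2).trans h3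

end Pool.Agent.helper37.MW
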